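import Mathlib
import Pool.Agent.H65.Vas2

set_option autoImplicit false
open Pool.Agent.H65.Vas

namespace Pool.Agent.Results.MP_dca5ce_ag.DimOne

/-- In dimension one the multiplicity is a test exponent. -/
theorem result (R : Type) [CommRing R] [IsDomain R] [IsNoetherianRing R] [IsLocalRing R]
    (hd : ringKrullDim R = 1) :
    1 ≤ mult R ∧ ∀ (M : Type) [AddCommGroup M] [Module R M], Module.Finite R M →
      ¬ Module.Free R M → Submodule.torsion R (TensorPower R (mult R) M) ≠ ⊥ :=
  main hd

end Pool.Agent.Results.MP_dca5ce_ag.DimOne
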