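import Mathlib
import Pool.Agent.H65.Vas1

set_option autoImplicit false
open TensorProduct

namespace Pool.Agent.Results.MP_dca5ce_ag.NotTwo

/-- Q2(a) fails: over some one-dimensional Noetherian local domain there is a finitely generated,
torsionfree, non-free module whose tensor square is torsionfree. -/
theorem result :
    ∃ (R : Type) (_ : CommRing R) (_ : IsDomain R) (_ : IsNoetherianRing R) (_ : IsLocalRing R),
      ringKrullDim R = 1 ∧
      ∃ (M : Type) (_ : AddCommGroup M) (_ : Module R M),
        Module.Finite R M ∧ Submodule.torsion R M = ⊥ ∧ ¬ Module.Free R M ∧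
        Submodule.torsion R (M ⊗[R] M) = ⊥ :=
  ⟨H65.Vas.Rs, inferInstance, inferInstance, H65.Vas.noeth, H65.Vas.isLocal, H65.Vas.dim_one,
    H65.Vas.Mm, inferInstance, inferInstance, H65.Vas.fin_M, H65.Vas.tors_M, H65.Vas.not_free,
    H65.Vas.tors_MM⟩

end Pool.Agent.Results.MP_dca5ce_ag.NotTwo
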